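import Mathlib
import Pool.Agent.H61.LmC
import Pool.Agent.H61.LmDefs

set_option autoImplicit false

namespace Pool.Agent.Results.MP_4840d7_an.Yes

open Pool.Agent.H61.LmDefs Pool.Agent.H61.Lm Filter Topology
open scoped Classical

theorem result {A X : Type} [NonUnitalCStarAlgebra A] [PartialOrder A] [StarOrderedRing A]
    [NormedAddCommGroup X] [NormedSpace ℂ X] [CompleteSpace X] (c : Corr A X)
    {B : Type} [NonUnitalCStarAlgebra B] (π : A →⋆ₙₐ[ℂ] B) (t : X →ₗ[ℂ] B) (h : IsUniversal c π t)
    (S : tensorAlg π t →L[ℂ] tensorAlg π t) (hS : LocalMul S ∨ ApproxMul S) : LeftMul S := by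
  replace hS : ApproxMul S := hS.elim (fun h a => (h a).elim fun x e =>
    ⟨fun _ => x, e ▸ tendsto_const_nhds⟩) id
  obtain ⟨⟨l1, l2⟩, hg, hu⟩ := h
  have l3 : ∀ x a, t x * π a = t (c.act x a) := fun x a => by
    have e : ∀ y, c.ip (c.act x a) y = star a * c.ip x y := fun y => by
      rw [← c.ip_star, c.ip_act, star_mul, c.ip_star]
    rw [← sub_eq_zero, ← CStarRing.star_mul_self_eq_zero_iff, star_sub, star_mul, sub_mul, mul_sub,
      mul_sub, mul_assoc, mul_assoc, ← mul_assoc (star (t x)), ← mul_assoc (star (t _)), l2, l2, l2,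
      l2, e, e, c.ip_act]
    simp [map_star, mul_assoc]
  choose γ g1 g2 using fun θ : AddCircle (1 : ℝ) => hu B π (fourier 1 θ • t)
    ⟨fun a x => by simp [mul_smul_comm, l1], fun x y => by
      simp [smul_mul_assoc, mul_smul_comm, l2, smul_smul, Complex.mul_conj,
        Complex.normSq_eq_norm_sq, Circle.norm_coe]⟩
  have gc : ∀ b, Continuous fun θ => γ θ b := fun b => by
    have hb : b ∈ closure (NonUnitalStarAlgebra.adjoin ℂ (Set.range π ∪ Set.range t) : Set B) :=
      show b ∈ NonUnitalStarSubalgebra.topologicalClosure _ from hg ▸ trivial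
    refine continuous_of_uniform_approx_of_continuous fun u hu => ?_
    obtain ⟨ε, e1, e2⟩ := Metric.mem_uniformity_dist.1 hu
    obtain ⟨a, c1, c2⟩ := Metric.mem_closure_iff.1 hb ε e1
    refine ⟨fun θ => γ θ a, ?_, fun θ => e2 ?_⟩
    · clear c2
      induction c1 using NonUnitalStarAlgebra.adjoin_induction with
      | mem x hx =>
        rcases hx with ⟨a, rfl⟩ | ⟨a, rfl⟩
        · simpa only [g1] using continuous_const
        · simp only [g2, LinearMap.smul_apply]
          fun_prop
      | add x y _ _ h1 h2 => simp only [map_add]; exact h1.add h2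
      | zero => simpa only [map_zero] using continuous_const
      | mul x y _ _ h1 h2 => simp only [map_mul]; exact h1.mul h2
      | smul r x _ h => simp only [map_smul]; exact h.const_smul r
      | star x _ h => simp only [map_star]; exact h.star
    · rw [dist_eq_norm, ← map_sub] at *
      exact (NonUnitalStarAlgHom.norm_apply_le _ _).trans_lt c2
  have gs : ∀ θ, Continuous (Unitization.starMap (γ θ)) := fun θ =>
    AddMonoidHomClass.continuous_of_bound _ 1 fun x => by
      simpa only [one_mul] using NonUnitalStarAlgHom.norm_apply_le _ x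
  let j : B →ₗ[ℂ] Unitization ℂ B := (Unitization.inrNonUnitalAlgHom ℂ B : B →ₗ[ℂ] _)
  have hj : ∀ b, j b = (b : Unitization ℂ B) := fun _ => rfl
  have ea : ∀ a ∈ (Unitization.starMap π).range, ∃ (r : ℂ) (b : A), a = r • 1 + ↑(π b) := by
    rintro _ ⟨a, rfl⟩
    exact ⟨a.fst, a.snd, by simp [Algebra.algebraMap_eq_smul_one]⟩
  let k : Ctx (Unitization ℂ B) :=
    { A := (Unitization.starMap π).range.topologicalClosure
      hA := isClosed_closure
      Y := (LinearMap.range (j ∘ₗ t)).topologicalClosure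
      hY := isClosed_closure
      AY a ha y hy := map_mem_closure₂ continuous_mul ha hy (by
        rintro a ha _ ⟨x, rfl⟩
        obtain ⟨r, b, rfl⟩ := ea a ha
        exact ⟨r • x + c.φ b x, by simp [hj, add_mul, ← l1]⟩)
      YA y hy a ha := map_mem_closure₂ continuous_mul hy ha (by
        rintro _ ⟨x, rfl⟩ a ha
        obtain ⟨r, b, rfl⟩ := ea a ha
        exact ⟨r • x + c.act x b, by simp [hj, mul_add, ← l3]⟩)
      YY y hy z hz := map_mem_closure₂ (f := fun y z => star y * z) (by fun_prop) hy hz (by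
        rintro _ ⟨x, rfl⟩ _ ⟨y, rfl⟩
        exact ⟨c.ip x y, by simp [hj, ← l2]⟩)
      γ θ := Unitization.starMap (γ θ)
      γc b := by
        simp only [Unitization.starMap_apply]
        exact continuous_const.add (Unitization.continuous_inr.comp (gc _))
      γA θ a ha := closure_minimal (t := {a | Unitization.starMap (γ θ) a = a}) (fun a ha => by
        obtain ⟨r, b, rfl⟩ := ea a ha
        simp only [Set.mem_ofPred_eq, map_add, map_smul, map_one, Unitization.starMap_inr, g1])
        (isClosed_eq (gs θ) continuous_id) ha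
      γY θ y hy := closure_minimal (t := {y | Unitization.starMap (γ θ) y = fourier 1 θ • y}) (by
        rintro _ ⟨x, rfl⟩
        simp only [Set.mem_ofPred_eq, LinearMap.comp_apply, hj, Unitization.starMap_inr, g2,
          LinearMap.smul_apply, Unitization.inr_smul])
        (isClosed_eq (gs θ) (continuous_const_smul _)) hy }
  let T₀ := (tensorAlg π t).toSubmodule
  let S₀ : T₀ →L[ℂ] T₀ := S
  obtain ⟨q, hq⟩ := (j ∘ₗ T₀.subtype).exists_leftInverse_of_injective (LinearMap.ker_eq_bot.2
    (Unitization.inr_injective.comp Subtype.val_injective))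
  have e1 : ∀ a : T₀, (j ∘ₗ T₀.subtype ∘ₗ S₀.toLinearMap ∘ₗ q) (a : B) = (S₀ a : B) := fun a =>
    congrArg (fun x : T₀ => j (S₀ x)) (LinearMap.congr_fun hq a)
  have m1 : ∀ a, π a ∈ tensorAlg π t := fun a =>
    subset_closure (NonUnitalAlgebra.subset_adjoin ℂ (Or.inl ⟨_, rfl⟩))
  have m2 : ∀ a, t a ∈ tensorAlg π t := fun a =>
    subset_closure (NonUnitalAlgebra.subset_adjoin ℂ (Or.inr ⟨_, rfl⟩))
  have hU : ∀ b ∈ tensorAlg π t, (b : Unitization ℂ B) ∈ k.U := fun b hb => by
    refine closure_minimal (t := (↑) ⁻¹' (k.U : Set (Unitization ℂ B))) (fun b hb => ?_)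
      (isClosed_closure.preimage Unitization.continuous_inr) hb
    change (b : Unitization ℂ B) ∈ k.U
    induction hb using NonUnitalAlgebra.adjoin_induction with
    | mem x hx =>
      rcases hx with ⟨a, rfl⟩ | ⟨a, rfl⟩
      · exact Ctx.A_U (subset_closure ⟨a, by simp⟩)
      · exact (Ctx.Mon.one (Submodule.le_topologicalClosure _ (LinearMap.mem_range_self _ a))).U
    | add x y _ _ h1 h2 => simpa using add_mem h1 h2
    | zero => simp
    | mul x y _ _ h1 h2 => simpa using Ctx.U_mul h1 h2
    | smul r x _ h => simpa using k.U.smul_mem r h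
  have hT : IsClosed (T₀.map j : Set (Unitization ℂ B)) :=
    Unitization.isometry_inr.isClosedEmbedding.isClosedMap _ isClosed_closure
  have hL : k.Loc (T₀.map j) (j ∘ₗ T₀.subtype ∘ₗ S₀.toLinearMap ∘ₗ q) ‖S₀‖ := by
    refine ⟨S₀.opNorm_nonneg, ?_, fun w hw u hu => ?_, ?_, ?_⟩
    · rintro _ ⟨b, hb, rfl⟩
      exact hU b hb
    · refine Ctx.cl_le hT (ContinuousLinearMap.mul ℂ _ w) (fun a ha => ?_) hu
      obtain ⟨n, ha⟩ := ha
      change w * a ∈ _
      induction ha with
      | zero h =>
        refine hT.closure_subset (map_mem_closure (f := (w * ·)) (by fun_prop) h fun a ha => ?_)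
        obtain ⟨r, b, rfl⟩ := ea a ha
        obtain ⟨w, hw, rfl⟩ := hw
        exact ⟨r • w + w * π b, add_mem (T₀.smul_mem _ hw) ((tensorAlg π t).mul_mem hw (m1 b)),
          by simp [hj, mul_add]⟩
      | succ _ h ih =>
        rw [← mul_assoc]
        obtain ⟨v, hv, e⟩ := ih
        refine hT.closure_subset (map_mem_closure (f := (_ * ·)) (by fun_prop) h ?_)
        rintro _ ⟨x, rfl⟩
        exact ⟨v * t x, (tensorAlg π t).mul_mem hv (m2 x), by simp [hj, ← e]⟩
    · rintro _ ⟨b, hb, rfl⟩
      rw [hj, e1 ⟨b, hb⟩, Unitization.norm_inr, Unitization.norm_inr]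
      exact S₀.le_opNorm ⟨b, hb⟩
    · rintro _ ⟨b, hb, rfl⟩
      obtain ⟨x, hx⟩ := hS ⟨b, hb⟩
      rw [hj, e1 ⟨b, hb⟩]
      exact mem_closure_of_tendsto (((Unitization.continuous_inr.comp
        continuous_subtype_val).tendsto _).comp hx) (.of_forall fun n =>
          ⟨_, hU _ (x n).2, Unitization.inr_mul ℂ _ _⟩)
  intro a b
  have := hL.all ⟨a, a.2, rfl⟩ (hU b b.2)
  rw [hj, ← Unitization.inr_mul, e1 ⟨a, a.2⟩, e1 ⟨a * b, (a * b).2⟩, ← Unitization.inr_mul] at this
  exact Subtype.ext (Unitization.inr_injective this)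

end Pool.Agent.Results.MP_4840d7_an.Yes
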